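import Pool.Agent.Y128.WD.Sharp

/-!
# Uniformization along trees, stationary antichains and the weak diamond

Q1 asks whether, under CH, an Aronszajn tree `T` has a stationary antichain if for some ladder system
`C` every monochromatic `ω`-colouring of `C` has a `T`-uniformization. The starting result
`StationaryAntichain` of this repository gives a positive answer, and the result `ExitAntichains` of
this repository a stronger one for `ω₁`. Here is the theorem for all successor cardinals, localized
to a set `E` of heights, and with the exact hypothesis on `E`.

* (1) The theorem holds for all successor cardinals `κ⁺` in place of `ω₁`, for trees with levels of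
  size at most `κ`; the uniformizing functions may have values in a set of size `2 ^ κ`, and the
  condition for all but finitely many `ξ` in `C δ` is replaced by a condition for almost all `ξ` with
  respect to `𝓕 δ`, for arbitrary proper filters `𝓕 δ`, different ones for different `δ`. Only
  colourings with TWO colours are used.
  Uniformization is needed only at heights in a set `E` for which the weak diamond of Devlin and
  Shelah holds, outside a nonstationary set, and then the antichain has stationarily many heights in
  `E`. The weak diamond holds for the set of all limit ordinals below `κ⁺` if
  `2 ^ κ < 2 ^ (κ⁺)` (Devlin and Shelah; proved here).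
* (2) This is sharp: the weak diamond for `E` is necessary and sufficient for the theorem for trees
  and arbitrary rules `D` for decoding the colour of a node `s` from the restriction of the
  function `φ` to the predecessors of `s`.

Idea. By the weak diamond there is a colouring `g`
which is different at stationarily many `δ` in `E` from the colour which is decoded from `φ` at a
node `s` of height `δ`, chosen among the nodes of height `δ` with all predecessors in the domain `S`
of `φ`. For these `δ` the node `s` is not in `S`, as `φ` uniformizes `g`; so it is a minimal node
outside `S`, and these nodes form an antichain. The converse is the case of the tree `T = κ⁺`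
without branching.
-/

set_option autoImplicit false

namespace Pool.Agent.Results.MP_807794_lc.WeakDiamondTrees

open Pool.Agent.Y128.WD

/-- **Uniformization along trees and stationary antichains** for all successor cardinals and
arbitrary proper filters; the weak diamond for `E` is equivalent to the theorem for `E`. -/
theorem result (κ : Cardinal.{0}) (hκ : Cardinal.aleph0 ≤ κ) :
    ((2 : Cardinal.{0}) ^ κ < 2 ^ Order.succ κ → WeakDiamond κ (limits κ)) ∧
    ∀ E : Set (W κ),
      (WeakDiamond κ E → ∀ (T : Type) [PartialOrder T] [IsTree T], LevelsLE κ T →
        ∀ V : Type, Cardinal.mk V ≤ 2 ^ κ → ∀ c : Bool → V, c false ≠ c true →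
          ∀ 𝓕 : W κ → Filter Ordinal.{0}, (∀ δ ∈ E, (𝓕 δ).NeBot) →
            UniformizableMod κ E T V c 𝓕 → HasStationaryAntichain κ E T) ∧
      (WeakDiamond κ E ↔ ∀ (T : Type) [PartialOrder T] [IsTree T], LevelsLE κ T →
        ∀ V : Type, Cardinal.mk V ≤ 2 ^ κ → ∀ D : (s : T) → ({u : T // u < s} → V) → Bool,
          Uniformizable κ E T V D → HasStationaryAntichain κ E T) :=
  ⟨weakDiamond_limits hκ, fun _ =>
    ⟨fun hE _ _ _ hT _ hV _ hc _ h𝓕 hU => antichain_of_mod hκ hE hT hV hc h𝓕 hU,
      fun hE _ _ _ hT _ hV _ hU => antichain_of_weakDiamond hκ hE hT hV hU,
      fun h => weakDiamond_of_trees hκ h⟩⟩

end Pool.Agent.Results.MP_807794_lc.WeakDiamondTrees
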